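import Pool.Agent.W_ccff5b_h54.IBound
import Pool.Agent.W_ccff5b_h54.IFinal

/-!
# A gap in the orders of generalized quadrangles: `s ≥ 4` gives `t = s^2` or `t ≤ s^2 - 2 s`
(MP_ccff5b_co)

The axioms are those of the problem file (and of the frozen statement S11485).
-/

set_option autoImplicit false

namespace Pool.Agent.Results.MP_ccff5b_co.Gap

open scoped Classical in
theorem result (Pt Ln : Type) [Finite Pt] [Finite Ln] [Nonempty Pt] (I : Pt → Ln → Prop)
    (s t : ℕ) (hs : 4 ≤ s)
    (h1 : ∀ p : Pt, Set.ncard {l : Ln | I p l} = t + 1)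
    (h2 : ∀ l : Ln, Set.ncard {p : Pt | I p l} = s + 1)
    (h3 : ∀ p q : Pt, ∀ l m : Ln, I p l → I q l → I p m → I q m → p ≠ q → l = m)
    (h4 : ∀ p : Pt, ∀ l : Ln, ¬ I p l →
      ∃! qm : Pt × Ln, I p qm.2 ∧ I qm.1 qm.2 ∧ I qm.1 l) :
    t = s ^ 2 ∨ t + 2 * s ≤ s ^ 2 := by
  have : Fintype Pt := Fintype.ofFinite Pt
  have : Fintype Ln := Fintype.ofFinite Ln
  have h : Pool.CCff5b.GQ I s t :=
    { lns_card := by
        intro p
        rw [← h1 p, Set.ncard_eq_toFinset_card']
        congr 1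
        ext l
        simp [Pool.CCff5b.lns]
      pts_card := by
        intro l
        rw [← h2 l, Set.ncard_eq_toFinset_card']
        congr 1
        ext p
        simp [Pool.CCff5b.pts]
      two := h3
      proj := h4 }
  obtain ⟨x⟩ := (inferInstance : Nonempty Pt)
  rcases Pool.CCff5b.arith_bound (by omega) (h.le_sq (by omega) x) (h.dvd_mult (by omega) x) with
    h5 | h5 | h5 | h5
  · exact Or.inl h5
  · exact (h.no_extremal h5 (by omega) x).elim
  · exact (h.no_iso h5 hs x).elim
  · exact Or.inr h5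

end Pool.Agent.Results.MP_ccff5b_co.Gap
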