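import Pool.Agent.W_ccff5b_h86.ClD

/-!
# The prime power conjecture for generalized quadrangles of order `(s, t)`, `s ≤ 4` (MP_ccff5b_co)

The statement is the frozen statement S11485 with the additional hypothesis `s ≤ 4`.
-/

set_option autoImplicit false

namespace Pool.Agent.Results.MP_ccff5b_co.UpToFour

open scoped Classical in
/-- Q1 for `s ≤ 4` -/
theorem result (Pt Ln : Type) [Finite Pt] [Finite Ln] [Nonempty Pt] (I : Pt → Ln → Prop)
    (s t : ℕ) (hs : 2 ≤ s) (hs4 : s ≤ 4) (hst : s ≤ t)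
    (h1 : ∀ p : Pt, Set.ncard {l : Ln | I p l} = t + 1)
    (h2 : ∀ l : Ln, Set.ncard {p : Pt | I p l} = s + 1)
    (h3 : ∀ p q : Pt, ∀ l m : Ln, I p l → I q l → I p m → I q m → p ≠ q → l = m)
    (h4 : ∀ p : Pt, ∀ l : Ln, ¬ I p l →
      ∃! qm : Pt × Ln, I p qm.2 ∧ I qm.1 qm.2 ∧ I qm.1 l) :
    (t = s ∨ t = s + 2 ∨ t ^ 2 = s ^ 3 ∨ t = s ^ 2) ∧
      ((t = s ∨ t ^ 2 = s ^ 3 ∨ t = s ^ 2) → IsPrimePow t) ∧
      (t = s + 2 → IsPrimePow (t - 1)) := by
  have := Fintype.ofFinite Pt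
  have := Fintype.ofFinite Ln
  have h : Pool.CCff5b.GQ I s t :=
    { lns_card := by
        intro p
        rw [← h1 p, Set.ncard_eq_toFinset_card']
        congr 1
        ext l
        simp [Pool.CCff5b.lns]
      pts_card := by
        intro l
        rw [← h2 l, Set.ncard_eq_toFinset_card']
        congr 1
        ext p
        simp [Pool.CCff5b.pts]
      two := h3
      proj := h4 }
  obtain ⟨x⟩ := (inferInstance : Nonempty Pt)
  exact h.q1_small hs hst hs4 x

end Pool.Agent.Results.MP_ccff5b_co.UpToFour
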